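import Pool.Agent.H.MP_6ff61e_lc.A

set_option autoImplicit false

namespace Pool.Agent.Results.MP_6ff61e_lc.LuzinSpace

open Pool.Agent.H.MP_6ff61e_lc Set Cardinal

theorem result : ∀ n : ℕ, 1 ≤ n →
    (∃ X : Set (Fin n → ℝ), ℵ₁ ≤ #X ∧ ∀ A : Set (Fin n → ℝ), IsMeagre A → #↥(X ∩ A) < ℵ₁) →
    ∃ G : Submodule ℚ (Fin n → ℝ), ℵ₁ ≤ #(G : Set (Fin n → ℝ)) ∧
      ∀ A : Set (Fin n → ℝ), IsMeagre A → #↥((G : Set (Fin n → ℝ)) ∩ A) < ℵ₁ := by
  rintro n hn ⟨X, hX, hL⟩
  let i0 : Fin n := ⟨0, hn⟩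
  let ι := (ℵ₁ : Cardinal.{0}).ord.ToType
  have hι : #ι = ℵ₁ := mk_ord_toType _
  obtain ⟨x⟩ : Nonempty (ι ↪ X) := (Cardinal.le_def _ _).1 (hι ▸ hX)
  have cIio : ∀ a : ι, (Iio a).Countable := fun a =>
    (countable_iff_lt_aleph_one _).2 (mk_Iio_toType_ord_lt a)
  have cIic : ∀ a : ι, (Iic a).Countable := fun a => by
    rw [← Iio_insert]; exact (cIio a).insert a
  have cs : ∀ S : Set (Fin n → ℝ), S.Countable →
      (Submodule.span ℚ S : Set (Fin n → ℝ)).Countable := by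
    intro S hS
    haveI := hS.to_subtype
    have : Countable (Submodule.span ℚ (range (Subtype.val : S → _))) := inferInstance
    rw [Subtype.range_coe] at this
    exact this
  obtain ⟨Φ, hΦ⟩ := phi (E := Fin n → ℝ)
  have en : ∀ S : Set (Fin n → ℝ), ∃ h : ℕ → Fin n → ℝ, S.Countable →
      (Submodule.span ℚ S : Set (Fin n → ℝ)) = range h := by
    intro S
    by_cases hS : S.Countable
    · obtain ⟨h, hh⟩ := (cs S hS).exists_eq_range ⟨0, Submodule.zero_mem _⟩
      exact ⟨h, fun _ => hh⟩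
    · exact ⟨0, fun h => absurd h hS⟩
  choose en hen using en
  let g : ι → Fin n → ℝ := (wellFounded_lt (α := ι)).fix fun a f =>
    Φ ((x a).1 i0) (en (range fun b : Iio a => f b.1 b.2))
  have hg : ∀ a, g a = Φ ((x a).1 i0) (en (g '' Iio a)) := by
    intro a
    rw [image_eq_range]
    exact WellFounded.fix_eq _ _ a
  have fs : ∀ S : Set ι, ∀ y ∈ Submodule.span ℚ (g '' S),
      y = 0 ∨ ∃ b ∈ S, y ∈ Submodule.span ℚ (g '' Iic b) := by
    intro S y hy
    induction hy using Submodule.span_induction with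
    | mem y hy =>
      obtain ⟨b, hb, rfl⟩ := hy
      exact Or.inr ⟨b, hb, Submodule.subset_span ⟨b, le_refl b, rfl⟩⟩
    | zero => exact Or.inl rfl
    | add y z _ _ h1 h2 =>
      rcases h1 with rfl | ⟨b, b1, b2⟩
      · simpa using h2
      rcases h2 with rfl | ⟨c, c1, c2⟩
      · exact Or.inr ⟨b, b1, by simpa using b2⟩
      rcases le_total b c with h | h
      · exact Or.inr ⟨c, c1, Submodule.add_mem _
          (Submodule.span_mono (image_mono (Iic_subset_Iic.2 h)) b2) c2⟩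
      · exact Or.inr ⟨b, b1, Submodule.add_mem _ b2
          (Submodule.span_mono (image_mono (Iic_subset_Iic.2 h)) c2)⟩
    | smul q y _ h1 =>
      rcases h1 with rfl | ⟨b, b1, b2⟩
      · simp
      · exact Or.inr ⟨b, b1, Submodule.smul_mem _ _ b2⟩
  have key : ∀ A : Set (Fin n → ℝ), IsMeagre A → ∃ S : Set ι, S.Countable ∧ ∀ a, a ∉ S →
      ∀ m : ℚ, m ≠ 0 → ∀ z ∈ Submodule.span ℚ (g '' Iio a), m • g a + z ∉ A := by
    intro A hA
    obtain ⟨M, M1, M2⟩ := hΦ A hA
    have M3 : IsMeagre ((fun y : Fin n → ℝ => y i0) ⁻¹' M) :=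
      M1.preimage_of_isOpenMap (continuous_apply i0) (isOpenMap_eval i0)
    have c := (countable_iff_lt_aleph_one _).2 (hL _ M3)
    refine ⟨(fun a => (x a).1) ⁻¹' (X ∩ _), c.preimage (Subtype.val_injective.comp x.injective),
      fun a ha m hm z hz => ?_⟩
    have hz' : z ∈ range (en (g '' Iio a)) := hen _ ((cIio a).image g) ▸ hz
    obtain ⟨j, rfl⟩ := hz'
    rw [← Rat.cast_smul_eq_qsmul ℝ]
    nth_rewrite 1 [hg a]
    exact M2 _ (fun h => ha ⟨(x a).2, h⟩) _ m j hm
  have lz : ∀ A : Set (Fin n → ℝ), IsMeagre A →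
      ((Submodule.span ℚ (g '' univ) : Set (Fin n → ℝ)) ∩ A).Countable := by
    intro A hA
    obtain ⟨S, S1, S2⟩ := key A hA
    refine ((S1.biUnion fun a _ => cs _ ((cIic a).image g)).insert 0).mono ?_
    rintro y ⟨y1, y2⟩
    rcases fs _ y y1 with rfl | ⟨b, -, hb⟩
    · simp
    obtain ⟨a, a1, a2⟩ := (wellFounded_lt (α := ι)).has_min
      {b | y ∈ Submodule.span ℚ (g '' Iic b)} ⟨b, hb⟩
    by_cases c : a ∈ S
    · exact Or.inr (mem_biUnion c a1)
    · have a3 : y ∈ Submodule.span ℚ (g '' Iic a) := a1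
      rw [← Iio_insert, image_insert_eq, Submodule.mem_span_insert] at a3
      obtain ⟨m, z, hz, rfl⟩ := a3
      by_cases hm : m = 0
      · subst hm
        rw [zero_smul, zero_add] at *
        rcases fs _ z hz with rfl | ⟨b', b1, b2⟩
        · simp
        · exact absurd b1 (a2 b' b2)
      · exact absurd y2 (S2 a c m hm z hz)
  refine ⟨Submodule.span ℚ (g '' univ), ?_, fun A hA => (countable_iff_lt_aleph_one _).1 (lz A hA)⟩
  by_contra hc
  have c := (countable_iff_lt_aleph_one _).2 (not_le.1 hc)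
  have hm : IsMeagre (Submodule.span ℚ (g '' univ) : Set (Fin n → ℝ)) := by
    rw [← biUnion_of_singleton (Submodule.span ℚ (g '' univ) : Set (Fin n → ℝ))]
    haveI : Nonempty (Fin n) := ⟨i0⟩
    refine isMeagre_biUnion c fun y _ => IsNowhereDense.isMeagre ?_
    rw [isClosed_singleton.isNowhereDense_iff, interior_singleton]
  obtain ⟨S, S1, S2⟩ := key _ hm
  obtain ⟨a, ha⟩ : ∃ a, a ∉ S := by
    by_contra h
    push Not at h
    have := (countable_iff_lt_aleph_one _).1 (S1.mono fun a _ => h a : (univ : Set ι).Countable)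
    rw [mk_univ, hι] at this
    exact lt_irrefl _ this
  refine S2 a ha 1 one_ne_zero 0 (Submodule.zero_mem _) ?_
  rw [one_smul, add_zero]
  exact Submodule.subset_span (mem_image_of_mem g (mem_univ a))

end Pool.Agent.Results.MP_6ff61e_lc.LuzinSpace
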